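import Pool.Agent.helper17.RX.Spec

set_option autoImplicit false

namespace TP.TW

open DP MeasureTheory Finset

theorem GRO : GRO_stmt := by
  intro C ε hC hε
  refine ⟨min (ε / 4) 1, lt_min (by linarith) one_pos, ⌈Real.exp (C + 3)⌉₊ + 3, by omega, ?_⟩
  intro n R hn hR hRL
  have hn0 : (0 : ℝ) < n := by
    have : 0 < n := by omega
    exact_mod_cast this
  have hexp : Real.exp (C + 3) ≤ n := by
    calc Real.exp (C + 3) ≤ (⌈Real.exp (C + 3)⌉₊ : ℝ) := Nat.le_ceil _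
      _ ≤ n := by
        have : ⌈Real.exp (C + 3)⌉₊ ≤ n := by omega
        exact_mod_cast this
  have hL : C + 3 ≤ Real.log n := by
    rw [Real.le_log_iff_exp_le hn0]
    exact hexp
  generalize hLdef : Real.log (n : ℝ) = L at *
  have hL4 : 4 ≤ L := by linarith
  have hL0 : 0 < L := by linarith
  have hl1 : 1 ≤ Real.log L := by
    rw [Real.le_log_iff_exp_le hL0]
    have := Real.exp_one_lt_d9
    linarith
  have hl0 : 0 < Real.log L := by linarith
  have hc : min (ε / 4) 1 * L / Real.log L ≤ L := by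
    rw [div_le_iff₀ hl0]
    have h1 : min (ε / 4) 1 * L ≤ 1 * L :=
      mul_le_mul_of_nonneg_right (min_le_right _ _) hL0.le
    have h2 : L * 1 ≤ L * Real.log L := mul_le_mul_of_nonneg_left hl1 hL0.le
    linarith
  have hRL' : (R : ℝ) ≤ L := hRL.trans hc
  have hR0 : (0 : ℝ) ≤ R := Nat.cast_nonneg R
  have h1 : C * ((R : ℝ) ^ 2 * L) ≤ L ^ 4 := by
    have h11 : (R : ℝ) ^ 2 ≤ L ^ 2 := pow_le_pow_left₀ hR0 hRL' 2
    have h12 : (R : ℝ) ^ 2 * L ≤ L ^ 2 * L := mul_le_mul_of_nonneg_right h11 hL0.le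
    have h13 : C * ((R : ℝ) ^ 2 * L) ≤ L * (L ^ 2 * L) :=
      mul_le_mul (by linarith) h12 (by positivity) hL0.le
    calc C * ((R : ℝ) ^ 2 * L) ≤ L * (L ^ 2 * L) := h13
      _ = L ^ 4 := by ring
  have h2 : (R : ℝ) * Real.log L ≤ ε / 4 * L := by
    have h21 := (le_div_iff₀ hl0).mp hRL
    have h22 : min (ε / 4) 1 * L ≤ ε / 4 * L :=
      mul_le_mul_of_nonneg_right (min_le_left _ _) hL0.le
    linarith
  have h3 : (0 : ℝ) ≤ C * ((R : ℝ) ^ 2 * L) := by positivity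
  calc (C * ((R : ℝ) ^ 2 * L)) ^ R ≤ (L ^ 4) ^ R := pow_le_pow_left₀ h3 h1 R
    _ = Real.exp (4 * ((R : ℝ) * Real.log L)) := by
      have h4 : L = Real.exp (Real.log L) := (Real.exp_log hL0).symm
      have h5 : (L ^ 4) ^ R = (Real.exp (Real.log L) ^ 4) ^ R := by rw [← h4]
      rw [h5, ← Real.exp_nat_mul, ← Real.exp_nat_mul]
      congr 1
      push_cast
      ring
    _ ≤ Real.exp (L * ε) := by
      apply Real.exp_le_exp.mpr
      linarith
    _ = (n : ℝ) ^ ε := by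
      rw [Real.rpow_def_of_pos hn0, hLdef]

end TP.TW
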